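import Pool.Agent.Helper650_UB.Sharp

/-!
# Families generating the power set of a `2n`-set by pairwise unions

Let `F` be a family of subsets of a `2n`-set such that every subset is a union of two members, and let `F` have
`m ≤ (2 - ε) 2^n` members. Then at least `(m + √(4 · 4^n - m^2)) / 2 - ε 2^n` members of `F` have size between
`(2 - √2 - η) n` and `(2 - √2 + η) n`, for all large `n`.
-/

namespace Pool.Agent.Results.MP_f69198_co.BandMembers

theorem result (ε : ℝ) (hε : 0 < ε) (η : ℝ) (hη : 0 < η) :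
    ∃ n₀ : ℕ, ∀ n : ℕ, n₀ ≤ n → ∀ F : Finset (Finset (Fin (2 * n))),
      (∀ S : Finset (Fin (2 * n)), ∃ A ∈ F, ∃ B ∈ F, A ∪ B = S) →
      (F.card : ℝ) ≤ (2 - ε) * 2 ^ n →
      ((F.card : ℝ) + √((2 * 2 ^ n) ^ 2 - (F.card : ℝ) ^ 2)) / 2 - ε * 2 ^ n ≤
        (Nat.card {A : Finset (Fin (2 * n)) // A ∈ F ∧ |(A.card : ℝ) - (2 - √2) * n| ≤ η * n} : ℝ) := by
  classical
  have hε' : 0 < min ε 1 := lt_min hε one_pos
  obtain ⟨n₀, hn₀⟩ := Helper650_UB.sharp_aux (min ε 1) η hε' (min_le_right _ _) hη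
  refine ⟨n₀, ?_⟩
  intro n hn F hF hcard
  have hle := min_le_left ε 1
  have h2 : (0 : ℝ) ≤ 2 ^ n := by positivity
  have h3 : min ε 1 * 2 ^ n ≤ ε * 2 ^ n := mul_le_mul_of_nonneg_right hle h2
  have h1 := hn₀ n hn F hF (by linarith)
  have h4 : (Nat.card {A : Finset (Fin (2 * n)) // A ∈ F ∧ |(A.card : ℝ) - (2 - √2) * n| ≤ η * n}) =
      (F.filter (fun A => |(A.card : ℝ) - (2 - √2) * n| ≤ η * n)).card := by
    rw [Nat.card_eq_fintype_card, Fintype.card_subtype]
    congr 1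
    ext A
    simp
  rw [h4]
  linarith

end Pool.Agent.Results.MP_f69198_co.BandMembers
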